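import Pool.Agent.Run7.h970.ND.Stm

/-!
# Piece END of the project of helper970 (MP_d3e607_co): the extremal choice and the arithmetic
-/

set_option autoImplicit false

namespace Pool.Agent.Run7.h141.ND

open SimpleGraph Pool.Agent.Run7.h970.ND

theorem ec_one {V : Type} [Finite V] (G : SimpleGraph V) {S : Set V} (h : S.ncard ≤ 1) :
    ec G S = 0 := by
  unfold ec
  rw [Set.ncard_eq_zero (Set.toFinite _)]
  ext e
  simp only [Set.mem_setOf_eq, Set.mem_empty_iff_false, iff_false, not_and]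
  intro he hS
  induction e using Sym2.ind with
  | _ x y =>
    have hx : x ∈ S := hS x (Sym2.mem_mk_left x y)
    have hy : y ∈ S := hS y (Sym2.mem_mk_right x y)
    have hxy : x = y := (Set.ncard_le_one (Set.toFinite _)).1 h x hx y hy
    rw [SimpleGraph.mem_edgeSet] at he
    exact G.ne_of_adj he hxy

theorem arith (K s ν n L : ℕ) (ε : ℝ) (hε : 0 < ε) (hs : 4 < ε * ((s : ℝ) + 1))
    (hν : 4 * (K : ℝ) * ((s : ℝ) + 1) < ε * ((ν : ℝ) - s)) (hsν : s < ν) (hn : 2 ≤ n)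
    (h1 : ε * ((n : ℝ) - 1) ≤ L)
    (h2 : (ν - s) * (s + 1) * L ≤ (ν - s) * n + K * (s + 1) * (s + 1) * n) : False := by
  have hD : ((ν - s : ℕ) : ℝ) = (ν : ℝ) - s := Nat.cast_sub hsν.le
  have h3 : ((ν - s : ℕ) : ℝ) * ((s : ℝ) + 1) * L ≤
      ((ν - s : ℕ) : ℝ) * n + K * ((s : ℝ) + 1) * ((s : ℝ) + 1) * n := by exact_mod_cast h2
  rw [hD] at h3
  set D : ℝ := (ν : ℝ) - s with hDdef
  have hD0 : 0 < D := sub_pos.2 (by exact_mod_cast hsν)
  have hn' : (2 : ℝ) ≤ n := by exact_mod_cast hn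
  have hn0 : (0 : ℝ) < n := by linarith
  have hs0 : (0 : ℝ) < (s : ℝ) + 1 := by positivity
  have h4 : ε * (n / 2) ≤ L := by
    refine le_trans (mul_le_mul_of_nonneg_left ?_ hε.le) h1
    linarith
  have h5 : D * ((s : ℝ) + 1) * (ε * (n / 2)) ≤
      D * n + K * ((s : ℝ) + 1) * ((s : ℝ) + 1) * n :=
    le_trans (mul_le_mul_of_nonneg_left h4 (by positivity)) h3
  have h6 : D * n * 4 < D * n * (ε * ((s : ℝ) + 1)) :=
    mul_lt_mul_of_pos_left hs (by positivity)
  have h7 : 4 * (K : ℝ) * ((s : ℝ) + 1) * (((s : ℝ) + 1) * n) < ε * D * (((s : ℝ) + 1) * n) :=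
    mul_lt_mul_of_pos_right hν (by positivity)
  nlinarith

theorem exists_least {P : ℕ → Prop} (h : ∃ n, P n) : ∃ n, P n ∧ ∀ m, P m → n ≤ m := by
  classical
  exact ⟨Nat.find h, Nat.find_spec h, fun m hm => Nat.find_min' h hm⟩

theorem St_zero {V : Type} (R : SimpleGraph V) (r : V) (w : ℕ → V) :
    St R r w 0 = {v | R.Reachable r v} := by
  ext v
  constructor
  · rintro ⟨c, hc, h⟩
    obtain rfl : c = 0 := by omega
    exact h
  · intro h
    exact ⟨0, le_rfl, h⟩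

theorem cs_St {V : Type} (R : SimpleGraph V) (r : V) (w : ℕ → V) :
    cs R r = (St R r w 0).ncard := by
  rw [St_zero]
  rfl

theorem t_END : S_END := by
  intro hNW hCNT hLEX hMX hRED hBND K ε hK hε
  set s : ℕ := ⌈4 / ε⌉₊ with hs
  set c₀ : ℕ := ⌈4 * (K : ℝ) * ((s : ℝ) + 1) / ε⌉₊ with hc₀
  refine ⟨s + c₀ + 2, ?_⟩
  intro V _ _ G hG
  haveI : Nonempty (Fin K) := ⟨⟨0, hK⟩⟩
  have hs4 : 4 < ε * ((s : ℝ) + 1) := by
    have h1 : 4 / ε ≤ (s : ℝ) := Nat.le_ceil _
    rw [div_le_iff₀ hε] at h1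
    nlinarith
  obtain ⟨T0, R0, h0⟩ := hNW V (Fin K) G (by
    intro S hS
    rw [Fintype.card_fin]
    rcases Nat.lt_or_ge S.ncard 2 with h | h
    · rw [ec_one G (by omega)]
      exact Nat.zero_le _
    · have h1 := hG S h
      have h2 : (2 : ℝ) ≤ S.ncard := by exact_mod_cast h
      have h3 : (ec G S : ℝ) ≤ ((K : ℝ) + 1) * ((S.ncard : ℝ) - 1) :=
        h1.trans (mul_le_mul_of_nonneg_right (by linarith) (by linarith))
      have h4 : ((S.ncard - 1 : ℕ) : ℝ) = (S.ncard : ℝ) - 1 := by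
        rw [Nat.cast_sub (by omega)]
        simp
      rw [← h4] at h3
      exact_mod_cast h3)
  by_contra hcon
  push Not at hcon
  -- the minimal number of edges
  obtain ⟨m₁, ⟨T1, R1, hc1, hm1⟩, hmin1⟩ := exists_least
    (P := fun m => ∃ (T : Fin K → SimpleGraph V) (R : SimpleGraph V),
      Cfg G T R ∧ R.edgeSet.ncard = m) ⟨_, T0, R0, h0, rfl⟩
  have hm : ∀ (T : Fin K → SimpleGraph V) (R : SimpleGraph V), Cfg G T R →
      m₁ ≤ R.edgeSet.ncard := fun T R h => hmin1 _ ⟨T, R, h, rfl⟩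
  -- the minimal size of the largest component
  have hcard : ∀ v, cs R1 v ≤ Fintype.card V := by
    intro v
    refine (Set.ncard_le_ncard (Set.subset_univ _) (Set.toFinite _)).trans ?_
    rw [Set.ncard_univ, Nat.card_eq_fintype_card]
  obtain ⟨ν, ⟨T2, R2, hc2, hm2, hν2⟩, hmin2⟩ := exists_least
    (P := fun n => ∃ (T : Fin K → SimpleGraph V) (R : SimpleGraph V),
      Cfg G T R ∧ R.edgeSet.ncard = m₁ ∧ ∀ v, cs R v ≤ n) ⟨_, T1, R1, hc1, hm1, hcard⟩
  have hνμ : s + c₀ + 2 < ν := by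
    obtain ⟨v, hv⟩ := hcon T2 R2 hc2
    exact lt_of_lt_of_le hv (hν2 v)
  -- the minimal number of the vertices in the largest components
  obtain ⟨N₀, ⟨T3, R3, hc3, hm3, hν3, hN3⟩, hmin3⟩ := exists_least
    (P := fun N => ∃ (T : Fin K → SimpleGraph V) (R : SimpleGraph V),
      Cfg G T R ∧ R.edgeSet.ncard = m₁ ∧ (∀ v, cs R v ≤ ν) ∧ {v | ν ≤ cs R v}.ncard = N)
    ⟨_, T2, R2, hc2, hm2, hν2, rfl⟩
  obtain ⟨r, hr3⟩ : ∃ r, cs R3 r = ν := by
    by_contra hno
    push Not at hno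
    have h1 := hmin2 (ν - 1) ⟨T3, R3, hc3, hm3, fun v => by
      have h2 := hν3 v
      have h3 := hno v
      omega⟩
    omega
  obtain ⟨T, R, u, w, β, L, ⟨hcfg, hme, hcs, hN, hr⟩, hleg, hclosed, hmini⟩ :=
    hLEX V (Fin K) r (fun T R => Cfg G T R ∧ R.edgeSet.ncard = m₁ ∧ (∀ v, cs R v ≤ ν) ∧
      {v | ν ≤ cs R v}.ncard ≤ N₀ ∧ cs R r = ν) ⟨T3, R3, hc3, hm3, hν3, hN3.le, hr3⟩
  have hred := hRED V (Fin K) G T R r u w β L hcfg (fun T' R' h => by
    rw [hme]
    exact hm T' R' h) hleg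
  have hcnt := hCNT V (Fin K) G T R r w L hcfg (fun a ha => (hleg a ha).2.1)
    (fun x hx b y hp => ⟨hclosed x hx b y hp, hred x hx b y hp⟩)
  -- the exchanges are impossible
  have hkey : ∀ (A : Finset ℕ) (b : Fin K) (i : ℕ), A.Nonempty →
      (∀ a ∈ A, a < L ∧ β a = b ∧ R.Reachable (rt r w i) (u a) ∧ cs R (w a) ≤ s) →
      (A.card = 1 ∨ s + 2 ≤ A.card) → ν + A.card ≤ cs R (rt r w i) + 1 + s := by
    intro A b i hA hAp hcardA
    by_contra hlt
    push Not at hlt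
    obtain ⟨T', R', l', hl', hcfg', hle', hleg', hSt', hcs', hlt'⟩ :=
      hMX V (Fin K) G T R r u w β L A b i s hcfg hleg hred hA hAp hcardA
    have hme' : R'.edgeSet.ncard = m₁ := le_antisymm (hme ▸ hle') (hm T' R' hcfg')
    have hcsν : ∀ v, cs R' v ≤ ν := by
      intro v
      have h1 := hcs v
      rcases hcs' v with h | h <;> omega
    have hsub : {v | ν ≤ cs R' v} ⊆ {v | ν ≤ cs R v} := by
      intro v hv
      simp only [Set.mem_setOf_eq] at hv ⊢
      rcases hcs' v with h | h <;> omega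
    rcases Nat.eq_zero_or_pos l' with h0' | hpos
    · subst h0'
      rw [← cs_St, ← cs_St, hr] at hlt'
      have hss : {v | ν ≤ cs R' v} ⊂ {v | ν ≤ cs R v} := by
        refine ⟨hsub, fun hback => ?_⟩
        have h1 : r ∈ {v | ν ≤ cs R v} := hr.ge
        have h2 := hback h1
        simp only [Set.mem_setOf_eq] at h2
        omega
      have h3 := Set.ncard_lt_ncard hss (Set.toFinite _)
      have h4 := hmin3 _ ⟨T', R', hcfg', hme', hcsν, rfl⟩
      omega
    · have h1 : cs R' r = ν := by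
        rw [cs_St R' r w, hSt' 0 hpos, ← cs_St, hr]
      have h2 := hmini T' R' l' ⟨hcfg', hme', hcsν,
        (Set.ncard_le_ncard hsub (Set.toFinite _)).trans hN, h1⟩ hl' hleg' hSt'
      omega
  have hbnd := hBND V (Fin K) R r u w β L s ν (by omega)
    (fun a ha => ⟨(hleg a ha).1, (hleg a ha).2.1⟩)
    (fun a i ha hwa hu => by
      have h1 := hkey {a} (β a) i (Finset.singleton_nonempty a) (by
        intro a' ha'
        rw [Finset.mem_singleton] at ha'
        subst ha'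
        exact ⟨ha, rfl, hu, hwa⟩) (Or.inl (Finset.card_singleton a))
      rw [Finset.card_singleton] at h1
      omega)
    (fun A b i hA => by
      by_contra hgt
      push Not at hgt
      have hne : A.Nonempty := Finset.card_pos.1 (by omega)
      have h1 := hkey A b i hne hA (Or.inr (by omega))
      have h2 := hcs (rt r w i)
      omega)
  -- the arithmetic
  have hU : ν ≤ (St R r w L).ncard := by
    rw [← hr, cs_St R r w]
    refine Set.ncard_le_ncard ?_ (Set.toFinite _)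
    rintro v ⟨c, hc, h⟩
    exact ⟨c, hc.trans (Nat.zero_le _), h⟩
  have hGU := hG (St R r w L) (by omega)
  rw [Fintype.card_fin] at hcnt hbnd
  set n : ℕ := (St R r w L).ncard with hn
  have h1 : ((K * (n - 1) + (n - (L + 1)) : ℕ) : ℝ) ≤ ((K : ℝ) + 1 - ε) * ((n : ℝ) - 1) :=
    le_trans (by exact_mod_cast hcnt) hGU
  have h2 : ((n - 1 : ℕ) : ℝ) = (n : ℝ) - 1 := by
    rw [Nat.cast_sub (by omega)]
    simp
  have h3 : (n : ℝ) - ((L : ℝ) + 1) ≤ ((n - (L + 1) : ℕ) : ℝ) := by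
    have : (n : ℝ) ≤ ((n - (L + 1) : ℕ) : ℝ) + ((L + 1 : ℕ) : ℝ) := by
      exact_mod_cast (by omega : n ≤ n - (L + 1) + (L + 1))
    push_cast at this
    linarith
  have h4 : ε * ((n : ℝ) - 1) ≤ L := by
    push_cast at h1
    rw [h2] at h1
    nlinarith
  have h5 : 4 * (K : ℝ) * ((s : ℝ) + 1) < ε * ((ν : ℝ) - s) := by
    have h6 : 4 * (K : ℝ) * ((s : ℝ) + 1) / ε ≤ (c₀ : ℝ) := Nat.le_ceil _
    rw [div_le_iff₀ hε] at h6
    have h7 : ((s + c₀ + 2 : ℕ) : ℝ) < ν := by exact_mod_cast hνμ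
    push_cast at h7
    nlinarith
  exact arith K s ν n L ε hε hs4 h5 (by omega) (by omega) h4 hbnd

end Pool.Agent.Run7.h141.ND
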